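import Pool.Agent.W2helper83.BT.Defs
import Pool.Agent.T6.H62.PP.Val

/-!
# Project BT, module FERM: Fermat curves of odd degree `l ≥ 5`
-/

set_option autoImplicit false

namespace Pool.Agent.W2helper6.BT

open IsDedekindDomain NumberField Polynomial
open Pool.Agent.W2helper83.BT
open Pool.Agent.T6.H62.PP.ModVal

section

variable {L : Type} [Field L] [NumberField L] (v : HeightOneSpectrum (𝓞 L))

omit [NumberField L] in
theorem prod_eq {l : ℕ} (hl : 0 < l) {ζ a x s : L} (hζ : IsPrimitiveRoot ζ l) (ha : a ^ l = 4)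
    (hs : 1 - 4 * x ^ l = s ^ 2) : ∏ η ∈ nthRootsFinset l (1 : L), (1 - η * (a * x)) = s ^ 2 := by
  rw [← hζ.pow_sub_pow_eq_prod_sub_mul 1 (a * x) hl, ← hs, mul_pow, ha, one_pow]

/-- the orders of the factors are even -/
theorem val_sq {l : ℕ} (hl : Odd l) (hv : ¬ (((2 * l : ℕ) : ℤ) : 𝓞 L) ∈ v.asIdeal)
    {ζ a x s : L} (hζ : IsPrimitiveRoot ζ l) (ha : a ^ l = 4) (hs : 1 - 4 * x ^ l = s ^ 2)
    (h0 : ∀ η ∈ nthRootsFinset l (1 : L), 1 - η * (a * x) ≠ 0) (η : L)
    (hη : η ∈ nthRootsFinset l (1 : L)) :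
    ∃ b : L, b ≠ 0 ∧ v.valuation L (1 - η * (a * x)) = v.valuation L b ^ 2 := by
  classical
  have hl0 : 0 < l := hl.pos
  have hvl : ¬ ((l : ℤ) : 𝓞 L) ∈ v.asIdeal := by
    intro h
    apply hv
    have e : (((2 * l : ℕ) : ℤ) : 𝓞 L) = 2 * ((l : ℤ) : 𝓞 L) := by push_cast; ring
    rw [e]
    exact Ideal.mul_mem_left _ _ h
  have hv2 : ¬ ((2 : ℤ) : 𝓞 L) ∈ v.asIdeal := by
    intro h
    apply hv
    have e : (((2 * l : ℕ) : ℤ) : 𝓞 L) = (l : 𝓞 L) * ((2 : ℤ) : 𝓞 L) := by push_cast; ring
    rw [e]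
    exact Ideal.mul_mem_left _ _ h
  have w2 : v.valuation L (2 : L) = 1 := by
    refine le_antisymm (by simpa using val_int_le v (2 : ℤ)) ?_
    by_contra hlt
    rw [not_le] at hlt
    exact hv2 ((val_int_lt v (2 : ℤ)).1 (by simpa using hlt))
  have w4 : v.valuation L (4 : L) = 1 := by
    have e : (4 : L) = 2 ^ 2 := by norm_num
    rw [e, map_pow, w2, one_pow]
  have wa : v.valuation L a = 1 := by
    have h1 : (v.valuation L a) ^ l = 1 := by rw [← map_pow, ha, w4]
    exact (pow_eq_one_iff.1 h1).resolve_right (by omega)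
  have hroot : ∀ θ ∈ nthRootsFinset l (1 : L), θ ^ l = 1 := by
    intro θ hθ
    rwa [mem_nthRootsFinset hl0] at hθ
  have wη : ∀ θ ∈ nthRootsFinset l (1 : L), v.valuation L θ = 1 := fun θ hθ =>
    val_root v hl0 (hroot θ hθ)
  have wx : ∀ θ ∈ nthRootsFinset l (1 : L), v.valuation L (θ * (a * x)) = v.valuation L x := by
    intro θ hθ
    rw [map_mul, map_mul, wη θ hθ, wa, one_mul, one_mul]
  have hprod := prod_eq hl0 hζ ha hs
  have hs0 : s ≠ 0 := by
    intro h
    rw [h, zero_pow two_ne_zero] at hprod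
    exact Finset.prod_ne_zero_iff.2 h0 hprod
  rcases le_or_gt (v.valuation L x) 1 with hx | hx
  · have hle : ∀ θ ∈ nthRootsFinset l (1 : L), v.valuation L (1 - θ * (a * x)) ≤ 1 := by
      intro θ hθ
      refine le_trans (Valuation.map_sub _ _ _) (max_le (by rw [map_one]) ?_)
      rw [wx θ hθ]
      exact hx
    rcases (hle η hη).lt_or_eq with h1 | h1
    · refine ⟨s, hs0, ?_⟩
      rw [← map_pow, ← hprod, map_prod, ← Finset.mul_prod_erase _ _ hη]
      rw [Finset.prod_eq_one, mul_one]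
      intro θ hθ
      rw [Finset.mem_erase] at hθ
      refine le_antisymm (hle θ hθ.2) ?_
      by_contra hlt
      rw [not_le] at hlt
      have hηx : v.valuation L x = 1 := by
        rw [← wx η hη]
        have e : η * (a * x) = 1 - (1 - η * (a * x)) := by ring
        rw [e]
        have h3 := Valuation.map_sub_eq_of_lt_right (v.valuation L)
          (x := 1 - η * (a * x)) (y := 1) (by rw [map_one]; exact h1)
        rw [Valuation.map_sub_swap, h3, map_one]
      have hη0 : η ≠ 0 := by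
        intro h
        have := hroot η hη
        rw [h, zero_pow hl0.ne'] at this
        exact zero_ne_one this
      have h4 : 1 ≤ v.valuation L (η - θ) := by
        have e : η - θ = η * (1 - θ / η) := by field_simp
        rw [e, map_mul, wη η hη, one_mul]
        refine val_one_sub v hl0 hvl ?_ ?_
        · rw [div_pow, hroot θ hθ.2, hroot η hη, div_one]
        · intro h5
          rw [div_eq_one_iff_eq hη0] at h5
          exact hθ.1 h5
      have h5 : v.valuation L ((η - θ) * (a * x)) < 1 := by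
        have e : (η - θ) * (a * x) = (1 - θ * (a * x)) - (1 - η * (a * x)) := by ring
        rw [e]
        exact lt_of_le_of_lt (Valuation.map_sub _ _ _) (max_lt hlt h1)
      rw [map_mul, map_mul, wa, hηx, one_mul, mul_one] at h5
      exact absurd h5 (not_lt.2 h4)
    · exact ⟨1, one_ne_zero, by rw [h1, map_one, one_pow]⟩
  · have heq : ∀ θ ∈ nthRootsFinset l (1 : L), v.valuation L (1 - θ * (a * x)) =
        v.valuation L x := by
      intro θ hθ
      rw [← wx θ hθ]
      refine Valuation.map_sub_eq_of_lt_right (v.valuation L) ?_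
      rw [map_one, wx θ hθ]
      exact hx
    have hx0 : x ≠ 0 := by
      rintro rfl
      rw [map_zero] at hx
      exact absurd hx (not_lt.2 zero_le_one)
    have hc : (nthRootsFinset l (1 : L)).card = l := hζ.card_nthRootsFinset
    have hp : v.valuation L x ^ l = v.valuation L s ^ 2 := by
      rw [← map_pow _ s, ← hprod, map_prod, Finset.prod_congr rfl heq, Finset.prod_const, hc]
    obtain ⟨k, hk⟩ := hl
    refine ⟨s / x ^ k, div_ne_zero hs0 (pow_ne_zero _ hx0), ?_⟩
    rw [heq η hη, map_div₀, map_pow, div_pow, ← hp, hk, ← pow_mul]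
    have hw0 : v.valuation L x ≠ 0 := (Valuation.ne_zero_iff _).2 hx0
    rw [eq_div_iff (pow_ne_zero _ hw0), ← pow_succ', mul_comm k 2]

end

/-- finitely many `x` -/
theorem fin_x (hF : FIVE) (hS : SEL 2) (hR : ROOTS) {l : ℕ} (h5 : 5 ≤ l) (hl : Odd l)
    {L : Type} [Field L] [NumberField L] {ζ a : L} (hζ : IsPrimitiveRoot ζ l) (ha : a ^ l = 4) :
    {x : L | ∃ s : L, 1 - 4 * x ^ l = s ^ 2}.Finite := by
  classical
  have hl0 : 0 < l := hl.pos
  have ha0 : a ≠ 0 := by
    rintro rfl
    rw [zero_pow hl0.ne'] at ha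
    norm_num at ha
  have hζ0 : ζ ≠ 0 := hζ.ne_zero hl0.ne'
  have hfin : {v : HeightOneSpectrum (𝓞 L) | (((2 * l : ℕ) : ℤ) : 𝓞 L) ∈ v.asIdeal}.Finite := by
    have hI : Ideal.span {(((2 * l : ℕ) : ℤ) : 𝓞 L)} ≠ ⊥ := by
      rw [Ne, Ideal.span_singleton_eq_bot]
      have : 2 * l ≠ 0 := by omega
      exact_mod_cast this
    refine (Ideal.finite_factors hI).subset (fun v hv => ?_)
    exact Ideal.dvd_span_singleton.2 hv
  obtain ⟨T, hT0, hT⟩ := hS L _ hfin
  -- the elements whose square roots are adjoined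
  let T2 : Finset L := (T ×ˢ Finset.range 4).image fun p => -(ζ ^ p.2 * a)⁻¹ * p.1
  obtain ⟨M, _, _, _, hM⟩ := hR L T2 2 (by norm_num)
  let e : ℕ → L := fun i => (ζ ^ i * a)⁻¹
  have he : ∀ i j : ℕ, i < 4 → j < 4 → i ≠ j → e i ≠ e j := by
    intro i j hi hj hij h
    have h1 : ζ ^ i * a = ζ ^ j * a := inv_injective h
    have h2 := mul_right_cancel₀ ha0 h1
    exact hij (hζ.pow_inj (by omega) (by omega) h2)
  have heM : ∀ i j : ℕ, i < 4 → j < 4 → i ≠ j → algebraMap L M (e i) ≠ algebraMap L M (e j) :=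
    fun i j hi hj hij h => he i j hi hj hij ((algebraMap L M).injective h)
  have hfive := hF M (algebraMap L M (e 0)) (algebraMap L M (e 1)) (algebraMap L M (e 2))
    (algebraMap L M (e 3)) (heM 0 1 (by norm_num) (by norm_num) (by norm_num))
    (heM 0 2 (by norm_num) (by norm_num) (by norm_num))
    (heM 0 3 (by norm_num) (by norm_num) (by norm_num))
    (heM 1 2 (by norm_num) (by norm_num) (by norm_num))
    (heM 1 3 (by norm_num) (by norm_num) (by norm_num))
    (heM 2 3 (by norm_num) (by norm_num) (by norm_num))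
  have hpre := hfive.preimage (f := algebraMap L M) (algebraMap L M).injective.injOn
  let Z : Finset L := (nthRootsFinset l (1 : L)).image fun η => (η * a)⁻¹
  refine (hpre.union Z.finite_toSet).subset ?_
  rintro x ⟨s, hs⟩
  by_cases h0 : ∀ η ∈ nthRootsFinset l (1 : L), 1 - η * (a * x) ≠ 0
  · left
    have key : ∀ i : ℕ, i < 4 → ∃ y : M, algebraMap L M x - algebraMap L M (e i) = y ^ 2 := by
      intro i hi
      have hηi : ζ ^ i ∈ nthRootsFinset l (1 : L) := by
        rw [mem_nthRootsFinset hl0, ← pow_mul, mul_comm, pow_mul, hζ.pow_eq_one, one_pow]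
      have hne := h0 _ hηi
      obtain ⟨t, ht, b, hb, hβ⟩ := hT (Units.mk0 _ hne) (by
        intro v hv
        obtain ⟨c, hc, hval⟩ := val_sq v hl hv hζ ha hs h0 _ hηi
        have e1 : v.valuationOfNeZero (Units.mk0 _ hne) =
            v.valuationOfNeZero (Units.mk0 c hc) ^ 2 := by
          have h1 := v.valuationOfNeZero_eq (K := L) (Units.mk0 _ hne)
          have h2 := v.valuationOfNeZero_eq (K := L) (Units.mk0 c hc)
          rw [Units.val_mk0, hval] at h1
          rw [Units.val_mk0] at h2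
          rw [← h2, ← WithZero.coe_pow] at h1
          exact WithZero.coe_inj.1 h1
        rw [e1, toAdd_pow]
        exact ⟨Multiplicative.toAdd (v.valuationOfNeZero (Units.mk0 c hc)), by simp⟩)
      rw [Units.val_mk0] at hβ
      obtain ⟨θ, hθ⟩ := hM (-(ζ ^ i * a)⁻¹ * t) (Finset.mem_image.2 ⟨(t, i),
        Finset.mem_product.2 ⟨ht, Finset.mem_range.2 hi⟩, rfl⟩)
      refine ⟨θ * algebraMap L M b, ?_⟩
      rw [mul_pow, hθ, ← map_pow, ← map_mul, ← map_sub]
      congr 1
      have hz : ζ ^ i * a ≠ 0 := mul_ne_zero (pow_ne_zero _ hζ0) ha0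
      have e2 : x - e i = -(ζ ^ i * a)⁻¹ * (1 - ζ ^ i * (a * x)) := by
        simp only [e]
        field_simp
        ring
      rw [e2, hβ]
      ring
    exact ⟨key 0 (by norm_num), key 1 (by norm_num), key 2 (by norm_num), key 3 (by norm_num)⟩
  · right
    push Not at h0
    obtain ⟨η, hη, hz⟩ := h0
    rw [Finset.mem_coe]
    refine Finset.mem_image.2 ⟨η, hη, ?_⟩
    have h1 : η * a * x = 1 := by linear_combination -hz
    exact inv_eq_of_mul_eq_one_right h1

/-- finitely many points -/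
theorem fin_L (hF : FIVE) (hS : SEL 2) (hR : ROOTS) {l : ℕ} (h5 : 5 ≤ l) (hl : Odd l)
    {L : Type} [Field L] [NumberField L] {ζ a : L} (hζ : IsPrimitiveRoot ζ l) (ha : a ^ l = 4) :
    {p : L × L | p.1 ^ l + p.2 ^ l = 1}.Finite := by
  classical
  have hl0 : 0 < l := hl.pos
  have hx := fin_x hF hS hR h5 hl hζ ha
  let P : L → L[X] := fun x => (X ^ l) ^ 2 - X ^ l + C (x ^ l)
  have hP : ∀ x, P x ≠ 0 := by
    intro x h
    have h1 : (P x).coeff (l * 2) = 0 := by rw [h]; simp
    simp only [P, coeff_add, coeff_sub, ← pow_mul, coeff_X_pow, coeff_C] at h1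
    have e1 : l * 2 ≠ l := by omega
    have e2 : l * 2 ≠ 0 := by omega
    simp [e1, e2] at h1
  refine (hx.biUnion (t := fun x => ((P x).roots.toFinset ×ˢ (P x).roots.toFinset : Finset (L × L)))
    fun x _ => Finset.finite_toSet _).subset ?_
  rintro ⟨u, w⟩ huw
  simp only [Set.mem_ofPred_eq] at huw
  simp only [Set.mem_iUnion]
  refine ⟨u * w, ⟨u ^ l - w ^ l, ?_⟩, ?_⟩
  · rw [mul_pow]
    have : w ^ l = 1 - u ^ l := by linear_combination huw
    rw [this]
    ring
  · rw [Finset.mem_coe, Finset.mem_product, Multiset.mem_toFinset, Multiset.mem_toFinset,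
      mem_roots (hP _), mem_roots (hP _), IsRoot.def, IsRoot.def]
    simp only [P, eval_add, eval_sub, eval_pow, eval_X, eval_C, mul_pow]
    constructor
    · linear_combination (u ^ l) * huw
    · linear_combination (w ^ l) * huw

theorem ferm (hF : FIVE) (hS : SEL 2) (hR : ROOTS) (l : ℕ) (h5 : 5 ≤ l) (ho : Odd l) :
    FERM l := by
  classical
  intro K _ _
  obtain ⟨L1, _, _, _, h1⟩ := hR K {4} l ho.pos
  obtain ⟨θ, hθ⟩ := h1 4 (Finset.mem_singleton_self _)
  have : NeZero l := ⟨by omega⟩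
  let L := CyclotomicField l L1
  have : NumberField L := inferInstance
  have hζ := IsCyclotomicExtension.zeta_spec l L1 L
  have hfin := fin_L hF hS hR h5 ho (L := L) (a := algebraMap L1 L θ) hζ (by
    rw [← map_pow, hθ, map_ofNat, map_ofNat])
  have hi : Function.Injective (fun p : K × K => ((algebraMap L1 L (algebraMap K L1 p.1),
      algebraMap L1 L (algebraMap K L1 p.2)) : L × L)) := by
    rintro ⟨p1, p2⟩ ⟨q1, q2⟩ h
    obtain ⟨h3, h4⟩ := Prod.mk.inj h
    exact Prod.ext ((algebraMap K L1).injective ((algebraMap L1 L).injective h3))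
      ((algebraMap K L1).injective ((algebraMap L1 L).injective h4))
  refine (hfin.preimage hi.injOn).subset ?_
  rintro ⟨u, w⟩ huw
  simp only [Set.mem_ofPred_eq] at huw
  simp only [Set.mem_preimage, Set.mem_ofPred_eq, ← map_pow, ← map_add, huw, map_one]

end Pool.Agent.W2helper6.BT
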