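import Pool.Agent.W2helper83.BT.Defs
import Pool.Agent.T6.H62.PP.Val

/-!
# Project BT, module FIN: ratios of numerators

After `Pool/Agent/T6/H62/PP/Val.lean`, with `l` in place of `3` and the Fermat curve of degree `l`
in place of the curve `y ^ 2 = x ^ 6 + 1`.
-/

set_option autoImplicit false

namespace Pool.Agent.W2helper6.BT

open IsDedekindDomain NumberField Polynomial
open Pool.Agent.W2helper83.BT
open Pool.Agent.T6.H62.PP (Psi)
open Pool.Agent.T6.H62.PP.ModVal hiding ord_dvd core fin1 fin2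

section

variable {K : Type} [Field K] [NumberField K] (v : HeightOneSpectrum (𝓞 K))

/-- the order of a rational integer -/
theorem val_lth (l : ℕ) {d : ℕ} (hv : ¬ ((d : ℤ) : 𝓞 K) ∈ v.asIdeal) (n : ℤ) (hn : n ≠ 0)
    (h3 : ∀ q : ℕ, q.Prime → ¬ q ∣ d → l ∣ padicValInt q n) :
    ∃ (a : K) (_ : a ≠ 0), v.valuation K (n : K) = v.valuation K a ^ l := by
  obtain ⟨q, hq, hqm⟩ := exists_char v
  have hqd : ¬ q ∣ d := by
    intro hqd
    exact hv ((hqm d).2 (by exact_mod_cast hqd))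
  obtain ⟨k, hk⟩ := h3 q hq hqd
  have : Fact q.Prime := ⟨hq⟩
  obtain ⟨m, hm⟩ : (q : ℤ) ^ padicValInt q n ∣ n := padicValInt_dvd n
  have hqm' : ¬ (q : ℤ) ∣ m := by
    intro hdiv
    obtain ⟨m', hm'⟩ := hdiv
    have h4 : (q : ℤ) ^ (padicValInt q n + 1) ∣ n :=
      ⟨m', by rw [pow_succ, mul_assoc, ← hm']; exact hm⟩
    rw [padicValInt_dvd_iff] at h4
    rcases h4 with h4 | h4
    · exact hn h4
    · omega
  refine ⟨(q : K) ^ k, pow_ne_zero _ (by exact_mod_cast hq.ne_zero), ?_⟩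
  have h5 : v.valuation K (m : K) = 1 := by
    refine le_antisymm (val_int_le v m) ?_
    by_contra hlt
    rw [not_le] at hlt
    exact hqm' ((hqm m).1 ((val_int_lt v m).1 hlt))
  have e : (n : K) = ((q : K) ^ k) ^ l * m := by
    conv_lhs => rw [hm, hk]
    push_cast
    rw [← pow_mul, mul_comm k l]
  rw [e, map_mul, h5, mul_one, map_pow]

theorem ord_dvd (l : ℕ) {d : ℕ} (hd : 0 < d) (hv : ¬ ((d : ℤ) : 𝓞 K) ∈ v.asIdeal) (X U : ℤ)
    (hXU : ∀ q : ℕ, q.Prime → ¬ q ∣ d → ¬ ((q : ℤ) ∣ X ∧ (q : ℤ) ∣ U))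
    (R : Finset K) (hR : ∀ η ∈ R, η ^ d = 1) (n : ℤ) (hn : n ≠ 0)
    (hprod : ∏ η ∈ R, ((X : K) - η * U) = n)
    (h3 : ∀ q : ℕ, q.Prime → ¬ q ∣ d → l ∣ padicValInt q n) (η : K) (hη : η ∈ R) (u : Kˣ)
    (hu : (u : K) = (X : K) - η * U) : (l : ℤ) ∣ Multiplicative.toAdd (v.valuationOfNeZero u) := by
  classical
  have hle : ∀ η ∈ R, v.valuation K ((X : K) - η * U) ≤ 1 := by
    intro η hη
    refine le_trans (Valuation.map_sub _ _ _) (max_le (val_int_le v X) ?_)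
    rw [map_mul, val_root v hd (hR η hη), one_mul]
    exact val_int_le v U
  obtain ⟨a, ha, hval⟩ : ∃ (a : K) (_ : a ≠ 0), v.valuation K ((X : K) - η * U) =
      v.valuation K a ^ l := by
    by_cases h1 : v.valuation K ((X : K) - η * U) < 1
    · obtain ⟨a, ha, h⟩ := val_lth v l hv n hn h3
      refine ⟨a, ha, ?_⟩
      rw [← h, ← hprod, map_prod, ← Finset.mul_prod_erase R _ hη]
      rw [Finset.prod_eq_one, mul_one]
      intro η' hη'
      rw [Finset.mem_erase] at hη'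
      refine le_antisymm (hle η' hη'.2) ?_
      by_contra hlt
      rw [not_le] at hlt
      exact uniq v hd hv X U hXU (hR η hη) (hR η' hη'.2) (Ne.symm hη'.1) h1 hlt
    · refine ⟨1, one_ne_zero, ?_⟩
      rw [map_one, one_pow]
      exact le_antisymm (hle η hη) (not_lt.1 h1)
  have e : v.valuationOfNeZero u = v.valuationOfNeZero (Units.mk0 a ha) ^ l := by
    have h1 := v.valuationOfNeZero_eq (K := K) u
    have h2 := v.valuationOfNeZero_eq (K := K) (Units.mk0 a ha)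
    rw [hu, hval] at h1
    rw [Units.val_mk0] at h2
    rw [← h2, ← WithZero.coe_pow] at h1
    exact WithZero.coe_inj.1 h1
  rw [e, toAdd_pow]
  exact ⟨Multiplicative.toAdd (v.valuationOfNeZero (Units.mk0 a ha)), by simp⟩

end

theorem core {l : ℕ} (hl : 0 < l) (hS : SEL l) (hFe : FERM l) (hR : ROOTS) (d : ℕ) (hd : 0 < d)
    (K : Type) [Field K] [NumberField K] (n1 n2 n3 : K) (h12 : n1 ≠ n2) (h13 : n1 ≠ n3)
    (h23 : n2 ≠ n3) (P : ℤ → ℤ → Prop) (hU : ∀ X U, P X U → U ≠ 0)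
    (h0 : ∀ X U, P X U → (X : K) - n1 * U ≠ 0 ∧ (X : K) - n2 * U ≠ 0 ∧ (X : K) - n3 * U ≠ 0)
    (hP : ∀ X U, P X U → ∀ v : HeightOneSpectrum (𝓞 K), ¬ ((d : ℤ) : 𝓞 K) ∈ v.asIdeal →
      ∀ η : K, (η = n1 ∨ η = n2 ∨ η = n3) → ∀ u : Kˣ, (u : K) = (X : K) - η * U →
        (l : ℤ) ∣ Multiplicative.toAdd (v.valuationOfNeZero u)) :
    {t : ℚ | ∃ X U : ℤ, P X U ∧ t = (X : ℚ) / (U : ℚ)}.Finite := by
  classical
  have hfin : {v : HeightOneSpectrum (𝓞 K) | ((d : ℤ) : 𝓞 K) ∈ v.asIdeal}.Finite := by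
    have hI : Ideal.span {((d : ℤ) : 𝓞 K)} ≠ ⊥ := by
      rw [Ne, Ideal.span_singleton_eq_bot]
      exact_mod_cast hd.ne'
    refine (Ideal.finite_factors hI).subset (fun v hv => ?_)
    exact Ideal.dvd_span_singleton.2 hv
  obtain ⟨T, hT0, hT⟩ := hS K _ hfin
  have c1 : n2 - n3 ≠ 0 := sub_ne_zero.2 h23
  have c2 : n3 - n1 ≠ 0 := sub_ne_zero.2 h13.symm
  have c3 : n1 - n2 ≠ 0 := sub_ne_zero.2 h12
  let T2 : Finset K := (T ×ˢ T).image (fun p => -((n2 - n3) / (n1 - n2)) * (p.1 / p.2)) ∪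
    (T ×ˢ T).image (fun p => -((n3 - n1) / (n1 - n2)) * (p.1 / p.2))
  obtain ⟨L, _, _, _, hL⟩ := hR K T2 l hl
  have hfe := hFe L
  have hfe2 : ((fun p : L × L => p.1 ^ l) '' {p : L × L | p.1 ^ l + p.2 ^ l = 1}).Finite :=
    hfe.image _
  let f : ℚ → L := fun t =>
    algebraMap K L (-((n2 - n3) / (n1 - n2)) * (((t : K) - n1) / ((t : K) - n3)))
  have hne3 : ∀ X U : ℤ, P X U → (((X : ℚ) / (U : ℚ) : ℚ) : K) - n3 ≠ 0 := by
    intro X U hXU h
    have hUK : (U : K) ≠ 0 := by exact_mod_cast hU X U hXU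
    apply (h0 X U hXU).2.2
    have ecast : (((X : ℚ) / (U : ℚ) : ℚ) : K) = (X : K) / U := by push_cast; rfl
    rw [ecast, sub_eq_zero, div_eq_iff hUK] at h
    rw [h, sub_self]
  refine Set.Finite.of_finite_image (f := f) (hfe2.subset ?_) ?_
  · rintro _ ⟨t, ⟨X, U, hXU, rfl⟩, rfl⟩
    obtain ⟨m1, m2, m3⟩ := h0 X U hXU
    have hUK : (U : K) ≠ 0 := by exact_mod_cast hU X U hXU
    obtain ⟨t1, ht1, b1, hb1, e1⟩ := hT (Units.mk0 _ m1)
      (fun v hv => hP X U hXU v hv _ (Or.inl rfl) _ rfl)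
    obtain ⟨t2, ht2, b2, hb2, e2⟩ := hT (Units.mk0 _ m2)
      (fun v hv => hP X U hXU v hv _ (Or.inr (Or.inl rfl)) _ rfl)
    obtain ⟨t3, ht3, b3, hb3, e3⟩ := hT (Units.mk0 _ m3)
      (fun v hv => hP X U hXU v hv _ (Or.inr (Or.inr rfl)) _ rfl)
    rw [Units.val_mk0] at e1 e2 e3
    obtain ⟨θ1, hθ1⟩ := hL (-((n2 - n3) / (n1 - n2)) * (t1 / t3)) (Finset.mem_union_left _
      (Finset.mem_image.2 ⟨(t1, t3), Finset.mem_product.2 ⟨ht1, ht3⟩, rfl⟩))
    obtain ⟨θ2, hθ2⟩ := hL (-((n3 - n1) / (n1 - n2)) * (t2 / t3)) (Finset.mem_union_right _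
      (Finset.mem_image.2 ⟨(t2, t3), Finset.mem_product.2 ⟨ht2, ht3⟩, rfl⟩))
    have g1 : (θ1 * algebraMap K L (b1 / b3)) ^ l = algebraMap K L (-((n2 - n3) / (n1 - n2)) *
        (((X : K) - n1 * U) / ((X : K) - n3 * U))) := by
      rw [mul_pow, hθ1, ← map_pow, ← map_mul, e1, e3, div_pow]
      congr 1
      rw [mul_assoc, div_mul_div_comm]
    have g2 : (θ2 * algebraMap K L (b2 / b3)) ^ l = algebraMap K L (-((n3 - n1) / (n1 - n2)) *
        (((X : K) - n2 * U) / ((X : K) - n3 * U))) := by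
      rw [mul_pow, hθ2, ← map_pow, ← map_mul, e2, e3, div_pow]
      congr 1
      rw [mul_assoc, div_mul_div_comm]
    refine ⟨(θ1 * algebraMap K L (b1 / b3), θ2 * algebraMap K L (b2 / b3)), ?_, ?_⟩
    · show (θ1 * algebraMap K L (b1 / b3)) ^ l + (θ2 * algebraMap K L (b2 / b3)) ^ l = 1
      rw [g1, g2, ← map_add, ← map_one (algebraMap K L)]
      congr 1
      field_simp
      ring
    · show (θ1 * algebraMap K L (b1 / b3)) ^ l = _
      rw [g1]
      simp only [f]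
      congr 2
      have ecast : (((X : ℚ) / (U : ℚ) : ℚ) : K) = (X : K) / U := by push_cast; rfl
      rw [ecast]
      have e4 : (X : K) - n1 * U = ((X : K) / U - n1) * U := by field_simp
      have e5 : (X : K) - n3 * U = ((X : K) / U - n3) * U := by field_simp
      rw [e4, e5, mul_div_mul_right _ _ hUK]
  · rintro t ⟨X, U, hXU, rfl⟩ t' ⟨X', U', hXU', rfl⟩ h
    have a1 := hne3 X U hXU
    have a2 := hne3 X' U' hXU'
    generalize ((X : ℚ) / (U : ℚ) : ℚ) = t at a1 h ⊢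
    generalize ((X' : ℚ) / (U' : ℚ) : ℚ) = t' at a2 h ⊢
    have h1 := (algebraMap K L).injective h
    have h2 := mul_left_cancel₀ (neg_ne_zero.2 (div_ne_zero c1 c3)) h1
    rw [div_eq_div_iff a1 a2] at h2
    have h3 : (n1 - n3) * ((t : K) - t') = 0 := by linear_combination h2
    have h4 := (mul_eq_zero.1 h3).resolve_left (sub_ne_zero.2 h13)
    have h5 : (t : K) = t' := sub_eq_zero.1 h4
    exact_mod_cast h5

theorem ne_of_pow' {K : Type} [Field K] [NumberField K] {d : ℕ} {X U : ℤ} (h : X ^ d ≠ U ^ d)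
    {η : K} (hη : η ^ d = 1) : (X : K) - η * U ≠ 0 := ne_of_pow h hη

theorem fin_of {l : ℕ} (hl : 0 < l) (hS : SEL l) (hFe : FERM l) (hR : ROOTS) (d : ℕ)
    (hd : 4 ≤ d) (K : Type) [Field K] [NumberField K] (ζ : K) (hζ : IsPrimitiveRoot ζ d) :
    {t : ℚ | ∃ X U : ℤ, FP l d X U ∧ t = (X : ℚ) / (U : ℚ)}.Finite ∧
    {t : ℚ | ∃ X U : ℤ, FP' l d X U ∧ t = (X : ℚ) / (U : ℚ)}.Finite := by
  classical
  have hζd := hζ.pow_eq_one
  have hr : ∀ η : K, (η = ζ ^ 1 ∨ η = ζ ^ 2 ∨ η = ζ ^ 3) → η ^ d = 1 ∧ η ≠ 1 := by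
    rintro η (rfl | rfl | rfl)
    · exact ⟨by rw [← pow_mul, mul_comm, pow_mul, hζd, one_pow],
        hζ.pow_ne_one_of_pos_of_lt (by norm_num) (by omega)⟩
    · exact ⟨by rw [← pow_mul, mul_comm, pow_mul, hζd, one_pow],
        hζ.pow_ne_one_of_pos_of_lt (by norm_num) (by omega)⟩
    · exact ⟨by rw [← pow_mul, mul_comm, pow_mul, hζd, one_pow],
        hζ.pow_ne_one_of_pos_of_lt (by norm_num) (by omega)⟩
  have hne : ∀ i j : ℕ, i < d → j < d → i ≠ j → ζ ^ i ≠ ζ ^ j :=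
    fun i j hi hj hij h => hij (hζ.pow_inj hi hj h)
  constructor
  · refine core hl hS hFe hR d (by omega) K (ζ ^ 1) (ζ ^ 2) (ζ ^ 3)
      (hne 1 2 (by omega) (by omega) (by norm_num)) (hne 1 3 (by omega) (by omega) (by norm_num))
      (hne 2 3 (by omega) (by omega) (by norm_num)) (FP l d) (fun X U h => h.1)
      (fun X U h => ⟨ne_of_pow h.2.1 (hr _ (Or.inl rfl)).1,
        ne_of_pow h.2.1 (hr _ (Or.inr (Or.inl rfl))).1,
        ne_of_pow h.2.1 (hr _ (Or.inr (Or.inr rfl))).1⟩) ?_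
    intro X U h v hv η hη u hu
    refine ord_dvd v l (by omega) hv X U (fun q hq hqd => (h.2.2 q hq hqd).1)
      (nthRootsFinset d (1 : K)) (fun η hη => ?_) (X ^ d - U ^ d) (sub_ne_zero.2 h.2.1) ?_
      (fun q hq hqd => (h.2.2 q hq hqd).2) η ?_ u hu
    · rwa [mem_nthRootsFinset (by omega)] at hη
    · rw [← hζ.pow_sub_pow_eq_prod_sub_mul _ _ (by omega)]
      push_cast
      rfl
    · rw [mem_nthRootsFinset (by omega)]
      exact (hr η hη).1
  · refine core hl hS hFe hR d (by omega) K (ζ ^ 1) (ζ ^ 2) (ζ ^ 3)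
      (hne 1 2 (by omega) (by omega) (by norm_num)) (hne 1 3 (by omega) (by omega) (by norm_num))
      (hne 2 3 (by omega) (by omega) (by norm_num)) (FP' l d) (fun X U h => h.1)
      (fun X U h => ⟨ne_of_pow h.2.1 (hr _ (Or.inl rfl)).1,
        ne_of_pow h.2.1 (hr _ (Or.inr (Or.inl rfl))).1,
        ne_of_pow h.2.1 (hr _ (Or.inr (Or.inr rfl))).1⟩) ?_
    intro X U h v hv η hη u hu
    have hgeo : (X - U) * Psi d X U = X ^ d - U ^ d := by
      unfold Psi
      rw [mul_comm]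
      exact geom_sum₂_mul X U d
    have hXU : X - U ≠ 0 := by
      intro h0
      apply h.2.1
      rw [sub_eq_zero.1 h0]
    have hPsi : Psi d X U ≠ 0 := by
      intro h0
      rw [h0, mul_zero] at hgeo
      exact h.2.1 (sub_eq_zero.1 hgeo.symm)
    refine ord_dvd v l (by omega) hv X U (fun q hq hqd => (h.2.2 q hq hqd).1)
      ((nthRootsFinset d (1 : K)).erase 1) (fun η hη => ?_) (Psi d X U) hPsi ?_
      (fun q hq hqd => (h.2.2 q hq hqd).2) η ?_ u hu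
    · rw [Finset.mem_erase, mem_nthRootsFinset (by omega)] at hη
      exact hη.2
    · have h1 := hζ.pow_sub_pow_eq_prod_sub_mul (X : K) (U : K) (by omega)
      rw [← Finset.mul_prod_erase _ _ (show (1 : K) ∈ nthRootsFinset d (1 : K) by
        rw [mem_nthRootsFinset (by omega)]; exact one_pow d), one_mul] at h1
      have h2 : ((X : K) - U) * (Psi d X U : K) = (X : K) ^ d - (U : K) ^ d := by
        have h5 := congrArg (Int.cast : ℤ → K) hgeo
        push_cast at h5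
        exact h5
      rw [← h2] at h1
      have h3 : (X : K) - U ≠ 0 := by exact_mod_cast hXU
      exact (mul_left_cancel₀ h3 h1).symm
    · rw [Finset.mem_erase, mem_nthRootsFinset (by omega)]
      exact ⟨(hr η hη).2, (hr η hη).1⟩

/-- **FIN** -/
theorem finStm (hR : ROOTS) : FINStm := by
  intro l d hl hS hFe he hd
  have : NeZero d := ⟨by omega⟩
  have : IsCyclotomicExtension {d} ℚ (CyclotomicField d ℚ) :=
    CyclotomicField.isCyclotomicExtension d ℚ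
  exact fin_of hl hS hFe hR d hd (CyclotomicField d ℚ)
    (IsCyclotomicExtension.zeta d ℚ (CyclotomicField d ℚ))
    (IsCyclotomicExtension.zeta_spec d ℚ (CyclotomicField d ℚ))

end Pool.Agent.W2helper6.BT
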