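import Pool.Agent.W2helper83.BT.Defs

/-!
# Project BT, modules SEL and ROOTS

Finiteness of the elements whose orders outside a finite set are multiples of `m`, up to `m`-th
powers (after `Pool/Agent/T6/H62/PP/Sel.lean`, which treats cubes), and roots in number fields.
-/

set_option autoImplicit false

open IsDedekindDomain NumberField Polynomial
open scoped nonZeroDivisors
open Pool.Agent.W2helper83.BT

namespace Pool.Agent.W2helper6.BT.Sel

/-- every multiset is `m` times a multiset plus a multiset with multiplicities less than `m`. -/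
lemma multiset_mth {α : Type*} [DecidableEq α] (m : ℕ) (hm : 0 < m) (s : Multiset α) :
    ∃ t d : Multiset α, s = m • t + d ∧ ∀ p, d.count p < m := by
  refine ⟨s.toFinset.sum fun p => Multiset.replicate (s.count p / m) p,
    s.toFinset.sum fun p => Multiset.replicate (s.count p % m) p, ?_, fun p => ?_⟩
  · ext p
    rw [Multiset.count_add, Multiset.count_nsmul, Multiset.count_sum', Multiset.count_sum']
    simp only [Multiset.count_replicate]
    by_cases hp : p ∈ s
    · rw [Finset.sum_eq_single p, Finset.sum_eq_single p]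
      · simp only [if_true]
        exact (Nat.div_add_mod _ _).symm
      · intro q _ hq
        rw [if_neg hq]
      · intro h
        exact absurd (Multiset.mem_toFinset.2 hp) h
      · intro q _ hq
        rw [if_neg hq]
      · intro h
        exact absurd (Multiset.mem_toFinset.2 hp) h
    · have h0 : Multiset.count p s = 0 := Multiset.count_eq_zero_of_notMem hp
      rw [h0, Finset.sum_eq_zero, Finset.sum_eq_zero]
      · rfl
      · intro q hq
        split_ifs with h
        · rw [h, h0, Nat.zero_mod]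
        · rfl
      · intro q hq
        split_ifs with h
        · rw [h, h0, Nat.zero_div]
        · rfl
  · rw [Multiset.count_sum']
    simp only [Multiset.count_replicate]
    by_cases hp : p ∈ s
    · rw [Finset.sum_eq_single p]
      · simp only [if_true]
        exact Nat.mod_lt _ hm
      · intro q _ hq
        rw [if_neg hq]
      · intro h
        exact absurd (Multiset.mem_toFinset.2 hp) h
    · rw [Finset.sum_eq_zero]
      · exact hm
      · intro q hq
        split_ifs with h
        · exact absurd (h ▸ Multiset.mem_toFinset.1 hq) hp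
        · rfl

variable {K : Type} [Field K] [NumberField K]

/-- order of vanishing of a nonzero integer in terms of `normalizedFactors`. -/
lemma val_int (v : HeightOneSpectrum (𝓞 K)) (r : 𝓞 K) (hr : r ≠ 0) (a : Kˣ)
    (ha : (a : K) = algebraMap (𝓞 K) K r) :
    Multiplicative.toAdd (v.valuationOfNeZero a) =
      -((UniqueFactorizationMonoid.normalizedFactors (Ideal.span {r})).count v.asIdeal : ℤ) := by
  classical
  have h1 : ((v.valuationOfNeZero a : Multiplicative ℤ) : WithZero (Multiplicative ℤ)) =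
      v.valuation K (a : K) := v.valuationOfNeZero_eq a
  rw [ha, v.valuation_of_algebraMap, v.intValuation_if_neg hr,
    Ideal.count_associates_factors_eq (by simpa using hr) v.isPrime v.ne_bot] at h1
  rw [WithZero.exp] at h1
  have h2 := WithZero.coe_injective h1
  rw [h2]
  rfl

/-- structure of ideals with orders divisible by `m` away from `S` -/
lemma ideal_mth (m : ℕ) (hm : 0 < m) (S : Set (HeightOneSpectrum (𝓞 K))) (hS : S.Finite) :
    ∃ D : Finset (Ideal (𝓞 K)), ∀ I : Ideal (𝓞 K), I ≠ 0 →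
      (∀ v : HeightOneSpectrum (𝓞 K), v ∉ S →
        m ∣ ((UniqueFactorizationMonoid.normalizedFactors I).count v.asIdeal)) →
      ∃ d ∈ D, ∃ J : Ideal (𝓞 K), J ≠ 0 ∧ I = J ^ m * d := by
  classical
  set S' : Finset (Ideal (𝓞 K)) := hS.toFinset.image (fun v => v.asIdeal) with hS'
  refine ⟨((m • S'.val).powerset.toFinset).image (fun s => s.prod), fun I hI hev => ?_⟩
  obtain ⟨t, d, hs, hd⟩ := multiset_mth m hm (UniqueFactorizationMonoid.normalizedFactors I)
  have hdS : ∀ p ∈ d, p ∈ S' := by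
    intro p hp
    have hpI : p ∈ UniqueFactorizationMonoid.normalizedFactors I := by
      rw [hs]; exact Multiset.mem_add.mpr (Or.inr hp)
    have hpp : Prime p := UniqueFactorizationMonoid.prime_of_normalized_factor p hpI
    let v : HeightOneSpectrum (𝓞 K) := ⟨p, Ideal.isPrime_of_prime hpp, hpp.ne_zero⟩
    by_contra hn
    have hv : v ∉ S := by
      intro hv
      apply hn
      rw [hS', Finset.mem_image]
      exact ⟨v, by simpa using hv, rfl⟩
    have h1 := hev v hv
    rw [hs] at h1
    have h2 : 0 < Multiset.count p d := Multiset.count_pos.mpr hp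
    have h4 := hd p
    have h3 : Multiset.count v.asIdeal (m • t + d) =
        m * Multiset.count p t + Multiset.count p d := by
      change Multiset.count p (m • t + d) = _
      rw [Multiset.count_add, Multiset.count_nsmul]
    rw [h3, Nat.dvd_add_right (Dvd.intro _ rfl)] at h1
    exact absurd (Nat.le_of_dvd h2 h1) (not_le.2 h4)
  refine ⟨d.prod, ?_, t.prod, ?_, ?_⟩
  · rw [Finset.mem_image]
    refine ⟨d, ?_, rfl⟩
    rw [Multiset.mem_toFinset, Multiset.mem_powerset, Multiset.le_iff_count]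
    intro p
    by_cases hp : p ∈ d
    · have h1 := hdS p hp
      have h2 : Multiset.count p S'.val = 1 := Multiset.count_eq_one_of_mem S'.nodup h1
      rw [Multiset.count_nsmul, h2, mul_one]
      exact (hd p).le
    · rw [Multiset.count_eq_zero_of_notMem hp]
      exact Nat.zero_le _
  · intro h0
    rw [Multiset.prod_eq_zero_iff] at h0
    have : (0 : Ideal (𝓞 K)) ∈ UniqueFactorizationMonoid.normalizedFactors I := by
      rw [hs]
      exact Multiset.mem_add.mpr (Or.inl (Multiset.mem_nsmul.2 ⟨hm.ne', h0⟩))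
    exact (UniqueFactorizationMonoid.prime_of_normalized_factor _ this).ne_zero rfl
  · have h2 : (UniqueFactorizationMonoid.normalizedFactors I).prod = I := by
      have := UniqueFactorizationMonoid.prod_normalizedFactors hI
      exact associated_iff_eq.mp this
    conv_lhs => rw [← h2, hs]
    rw [Multiset.prod_add, Multiset.prod_nsmul]

/-- finiteness of units modulo `m`-th powers -/
lemma units_mth (K : Type) [Field K] [NumberField K] (m : ℕ) (hm : 0 < m) :
    ∃ T : Finset (𝓞 K)ˣ, ∀ u : (𝓞 K)ˣ, ∃ t ∈ T, ∃ w : (𝓞 K)ˣ, u = t * w ^ m := by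
  classical
  have : Group.FG (𝓞 K)ˣ := Group.fg_iff_monoid_fg.mpr inferInstance
  have h := Subgroup.finiteIndex_range_powMonoidHom_of_fg (𝓞 K)ˣ (n := m) hm.ne'
  have : Finite ((𝓞 K)ˣ ⧸ (powMonoidHom (α := (𝓞 K)ˣ) m).range) :=
    Subgroup.finite_quotient_of_finiteIndex
  have := Fintype.ofFinite ((𝓞 K)ˣ ⧸ (powMonoidHom (α := (𝓞 K)ˣ) m).range)
  refine ⟨Finset.univ.image (fun q : (𝓞 K)ˣ ⧸ (powMonoidHom (α := (𝓞 K)ˣ) m).range => q.out),
    fun u => ?_⟩
  refine ⟨(QuotientGroup.mk (s := (powMonoidHom (α := (𝓞 K)ˣ) m).range) u).out,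
    Finset.mem_image_of_mem _ (Finset.mem_univ _), ?_⟩
  have h1 : QuotientGroup.mk (s := (powMonoidHom (α := (𝓞 K)ˣ) m).range)
      (QuotientGroup.mk (s := (powMonoidHom (α := (𝓞 K)ˣ) m).range) u).out =
      QuotientGroup.mk u := QuotientGroup.out_eq' _
  rw [QuotientGroup.eq] at h1
  obtain ⟨w, hw⟩ := h1
  refine ⟨w, ?_⟩
  rw [powMonoidHom_apply] at hw
  rw [hw, mul_inv_cancel_left]

/-- integral version of the finiteness. -/
lemma sel_int (m : ℕ) (hm : 0 < m) (S : Set (HeightOneSpectrum (𝓞 K))) (hS : S.Finite) :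
    ∃ T : Finset (𝓞 K), (∀ t ∈ T, t ≠ 0) ∧ ∀ a : 𝓞 K, a ≠ 0 →
      (∀ v : HeightOneSpectrum (𝓞 K), v ∉ S →
        m ∣ ((UniqueFactorizationMonoid.normalizedFactors (Ideal.span {a})).count v.asIdeal)) →
      ∃ t ∈ T, ∃ x y : 𝓞 K, x ≠ 0 ∧ y ≠ 0 ∧ x ^ m * a = t * y ^ m := by
  classical
  obtain ⟨D, hD⟩ := ideal_mth m hm S hS
  obtain ⟨U, hU⟩ := units_mth K m hm
  -- the relation between integers and (ideal, class)
  let Rel : Ideal (𝓞 K) × ClassGroup (𝓞 K) → 𝓞 K → Prop := fun c a =>
    a ≠ 0 ∧ ∃ J : (Ideal (𝓞 K))⁰, Ideal.span {a} = (J : Ideal (𝓞 K)) ^ m * c.1 ∧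
      ClassGroup.mk0 J = c.2
  let rep : Ideal (𝓞 K) × ClassGroup (𝓞 K) → 𝓞 K := fun c =>
    if h : ∃ a, Rel c a then Classical.choose h else 1
  have hrep0 : ∀ c, rep c ≠ 0 := by
    intro c
    simp only [rep]
    split_ifs with h
    · exact (Classical.choose_spec h).1
    · exact one_ne_zero
  let T : Finset (𝓞 K) := ((D ×ˢ (Finset.univ : Finset (ClassGroup (𝓞 K)))) ×ˢ U).image
    (fun c => rep c.1 * (c.2 : 𝓞 K))
  refine ⟨T, ?_, ?_⟩
  · intro t ht
    simp only [T, Finset.mem_image] at ht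
    obtain ⟨c, -, rfl⟩ := ht
    exact mul_ne_zero (hrep0 _) (Units.ne_zero _)
  · intro a ha hev
    have hI : Ideal.span {a} ≠ (0 : Ideal (𝓞 K)) := by simpa using ha
    obtain ⟨d, hd, J, hJ, hIJ⟩ := hD _ hI hev
    set J' : (Ideal (𝓞 K))⁰ := ⟨J, mem_nonZeroDivisors_iff_ne_zero.mpr hJ⟩ with hJ'
    have hR : Rel (d, ClassGroup.mk0 J') a := ⟨ha, J', hIJ, rfl⟩
    have hex : ∃ a, Rel (d, ClassGroup.mk0 J') a := ⟨a, hR⟩
    have hrepe : rep (d, ClassGroup.mk0 J') = Classical.choose hex := by
      simp only [rep]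
      rw [dif_pos hex]
    obtain ⟨hb0, J2, hJ2, hcl⟩ := Classical.choose_spec hex
    rw [← hrepe] at hb0 hJ2
    set b := rep (d, ClassGroup.mk0 J') with hb
    obtain ⟨x, y, hx, hy, hxy⟩ := ClassGroup.mk0_eq_mk0_iff.mp hcl
    -- x J2 = y J
    have h1 : Ideal.span {y ^ m * a} = Ideal.span {x ^ m * b} := by
      rw [← Ideal.span_singleton_mul_span_singleton, ← Ideal.span_singleton_mul_span_singleton,
        ← Ideal.span_singleton_pow, ← Ideal.span_singleton_pow, hIJ, hJ2]
      have h2 : (Ideal.span {y} * (J' : Ideal (𝓞 K))) = Ideal.span {x} * (J2 : Ideal (𝓞 K)) :=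
        hxy.symm
      calc Ideal.span {y} ^ m * (J ^ m * d) = (Ideal.span {y} * J) ^ m * d := by
            rw [mul_pow, mul_assoc]
        _ = (Ideal.span {x} * (J2 : Ideal (𝓞 K))) ^ m * d := by rw [← h2]
        _ = _ := by rw [mul_pow, mul_assoc]
    rw [Ideal.span_singleton_eq_span_singleton] at h1
    obtain ⟨u, hu⟩ := h1.symm
    obtain ⟨t, ht, w, hw⟩ := hU u
    refine ⟨b * (t : 𝓞 K), ?_, y, x * (w : 𝓞 K), hy, mul_ne_zero hx (Units.ne_zero _), ?_⟩
    · simp only [T, Finset.mem_image]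
      refine ⟨((d, ClassGroup.mk0 J'), t), ?_, rfl⟩
      simp only [Finset.mem_product, Finset.mem_univ, and_true]
      exact ⟨hd, ht⟩
    · rw [← hu, hw, mul_pow]
      push_cast
      ring

end Pool.Agent.W2helper6.BT.Sel

namespace Pool.Agent.W2helper6.BT

open Sel in
/-- **SEL** -/
theorem sel (m : ℕ) (hm : 0 < m) : SEL m := by
  intro K _ _ S hS
  classical
  obtain ⟨T, hT0, hT⟩ := sel_int m hm S hS
  refine ⟨T.image (fun t => algebraMap (𝓞 K) K t), ?_, ?_⟩
  · intro t ht
    obtain ⟨s, hs, rfl⟩ := Finset.mem_image.mp ht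
    simpa using hT0 s hs
  · intro a hev
    obtain ⟨p, q, hq, hpq⟩ := IsFractionRing.div_surjective (A := 𝓞 K) (a : K)
    have hq0 : q ≠ 0 := nonZeroDivisors.ne_zero hq
    have hqK : algebraMap (𝓞 K) K q ≠ 0 := by simpa using hq0
    have hp0 : p ≠ 0 := by
      rintro rfl
      rw [map_zero, zero_div] at hpq
      exact a.ne_zero hpq.symm
    have hpq0 : p * q ^ (m - 1) ≠ 0 := mul_ne_zero hp0 (pow_ne_zero _ hq0)
    have hpqK : algebraMap (𝓞 K) K (p * q ^ (m - 1)) ≠ 0 := by
      rw [Ne, FaithfulSMul.algebraMap_eq_zero_iff]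
      exact hpq0
    have hqm : algebraMap (𝓞 K) K q ^ m = algebraMap (𝓞 K) K q ^ (m - 1) * algebraMap (𝓞 K) K q := by
      rw [← pow_succ, Nat.sub_add_cancel hm]
    obtain ⟨t, ht, x, y, hx, hy, hxy⟩ := hT (p * q ^ (m - 1)) hpq0 (by
      intro v hv
      have h1 := val_int v (p * q ^ (m - 1)) hpq0 (Units.mk0 _ hpqK) rfl
      have h2 : Units.mk0 _ hpqK = a * (Units.mk0 _ hqK) ^ m := by
        apply Units.ext
        rw [Units.val_mul, Units.val_pow_eq_pow_val, Units.val_mk0, Units.val_mk0, ← hpq, map_mul,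
          map_pow, hqm]
        field_simp
      rw [h2, map_mul, map_pow, toAdd_mul, toAdd_pow] at h1
      have h3 : (m : ℤ) ∣ (-((UniqueFactorizationMonoid.normalizedFactors
          (Ideal.span {p * q ^ (m - 1)})).count v.asIdeal : ℤ)) := by
        rw [← h1]
        refine dvd_add (hev v hv) ?_
        rw [nsmul_eq_mul]
        exact Dvd.intro _ rfl
      rw [dvd_neg] at h3
      exact_mod_cast h3)
    have hxK : algebraMap (𝓞 K) K x ≠ 0 := by simpa using hx
    have hyK : algebraMap (𝓞 K) K y ≠ 0 := by simpa using hy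
    refine ⟨algebraMap (𝓞 K) K t, Finset.mem_image_of_mem _ ht,
      algebraMap (𝓞 K) K y / (algebraMap (𝓞 K) K x * algebraMap (𝓞 K) K q),
      div_ne_zero hyK (mul_ne_zero hxK hqK), ?_⟩
    have h4 := congrArg (algebraMap (𝓞 K) K) hxy
    simp only [map_mul, map_pow] at h4
    rw [← hpq, div_pow, mul_pow, hqm]
    have hxm : algebraMap (𝓞 K) K x ^ m ≠ 0 := pow_ne_zero _ hxK
    have hqm1 : algebraMap (𝓞 K) K q ^ (m - 1) ≠ 0 := pow_ne_zero _ hqK
    rw [mul_div_assoc', div_eq_div_iff hqK (mul_ne_zero hxm (mul_ne_zero hqm1 hqK))]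
    linear_combination (algebraMap (𝓞 K) K q) * h4

/-- **ROOTS** -/
theorem roots : ROOTS := by
  intro K _ _ T m hm
  classical
  let p : K[X] := ∏ t ∈ T, (X ^ m - C t)
  refine ⟨p.SplittingField, inferInstance, NumberField.of_module_finite K p.SplittingField,
    inferInstance, ?_⟩
  have hs := SplittingField.splits p
  have hp0 : ∀ t ∈ T, (X ^ m - C t : K[X]) ≠ 0 := fun t _ => X_pow_sub_C_ne_zero hm t
  intro t ht
  have hdvd : (X ^ m - C t : K[X]) ∣ p := Finset.dvd_prod_of_mem _ ht
  have hpne : p ≠ 0 := Finset.prod_ne_zero_iff.2 hp0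
  have hs2 : ((X ^ m - C t : K[X]).map (algebraMap K p.SplittingField)).Splits :=
    Splits.of_dvd hs (Polynomial.map_ne_zero hpne) (Polynomial.map_dvd _ hdvd)
  have hdeg : ((X ^ m - C t : K[X]).map (algebraMap K p.SplittingField)).degree ≠ 0 := by
    rw [degree_map, degree_X_pow_sub_C hm]
    exact_mod_cast hm.ne'
  obtain ⟨θ, hθ⟩ := hs2.exists_eval_eq_zero hdeg
  refine ⟨θ, ?_⟩
  have : θ ^ m - algebraMap K p.SplittingField t = 0 := by
    simpa using hθ
  exact sub_eq_zero.mp this

end Pool.Agent.W2helper6.BT
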