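import Pool.Agent.W2helper6.BT.Per

/-!
# Project BT, module EXC: only finitely many parameters with two rational periodic points
-/

set_option autoImplicit false

namespace Pool.Agent.W2helper6.BT

open Finset Pool.Agent.T6.H62.UB
open Pool.Agent.T6.H62.PP (Psi)
open Pool.Agent.W2helper83.BT
open Pool.Agent.W2helper6.BT.G

/-- The reduction for `x ^ d + c`, with the points. -/
theorem exists_sys_pts {d : ℕ} (hd : 2 ≤ d) {c : ℚ} (T : Finset ℚ) (hT0 : T.Nonempty)
    (hT : ∀ x ∈ T, IsPreperiodic (fun x : ℚ => x ^ d + c) x) :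
    ∃ (v : ℕ) (b : ℤ) (O : Finset ℤ) (φ : ℤ → ℤ), 0 < v ∧ (b : ℚ) = c * (v : ℚ) ^ d ∧
      Sys d 1 b (v ^ (d - 1)) O φ ∧ ∀ x ∈ T, ∃ u ∈ O, (u : ℚ) = v * x := by
  classical
  obtain ⟨x0, hx0⟩ := hT0
  set v := x0.den with hv
  have hv0 : 0 < v := x0.den_pos
  have hcd : c.den = v ^ d := den_eq hd (hT x0 hx0)
  have hvQ : (v : ℚ) ≠ 0 := by exact_mod_cast hv0.ne'
  have hcQ : (c.num : ℚ) = c * (v : ℚ) ^ d := by
    have h1 : (c.num : ℚ) / c.den = c := Rat.num_div_den c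
    rw [hcd] at h1
    push_cast at h1
    rw [div_eq_iff (pow_ne_zero _ hvQ)] at h1
    exact h1
  have hcop : IsCoprime c.num ((v ^ (d - 1) : ℕ) : ℤ) := by
    have h1 : IsCoprime c.num (c.den : ℤ) := by
      rw [Int.isCoprime_iff_gcd_eq_one]
      exact c.reduced
    rw [hcd] at h1
    push_cast at h1 ⊢
    exact (IsCoprime.pow_right ((IsCoprime.pow_right_iff (by omega)).1 h1))
  have hconj : ∀ (k : ℕ) (x : ℚ), (fun x : ℚ => (((1 : ℤ) : ℚ) * x ^ d + (c.num : ℚ)) /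
      ((v ^ (d - 1) : ℕ) : ℚ))^[k] (v * x) = v * (fun x : ℚ => x ^ d + c)^[k] x := by
    intro k
    induction k with
    | zero => intro x; rfl
    | succ k ih =>
      intro x
      rw [Function.iterate_succ_apply, Function.iterate_succ_apply, ← ih]
      congr 1
      push_cast
      rw [hcQ, div_eq_iff (pow_ne_zero _ hvQ)]
      obtain ⟨e, rfl⟩ : ∃ e, d = e + 1 := ⟨d - 1, by omega⟩
      simp only [Nat.add_sub_cancel]
      ring
  obtain ⟨O, φ, h1, h2, h3, h4⟩ := exists_sys hd (A := 1) (B := c.num) (V := v ^ (d - 1))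
    one_ne_zero (by positivity) isCoprime_one_left hcop (by
      intro p hp hdvd
      have h5 : (p : ℤ) ∣ 1 := (dvd_pow_self _ (by omega)).trans hdvd
      have := Int.le_of_dvd one_pos h5
      have := hp.one_lt
      omega) (T.image fun x => v * x) (by
      intro y hy
      obtain ⟨x, hx, rfl⟩ := mem_image.1 hy
      obtain ⟨m, n, hmn, heq⟩ := hT x hx
      exact ⟨m, n, hmn, by rw [hconj, hconj, heq]⟩)
  exact ⟨v, c.num, O, φ, hv0, hcQ, h1, fun x hx => h2 _ (mem_image_of_mem _ hx)⟩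

/-- the rational points of period dividing some `n > 0` -/
def PerQ (d : ℕ) (c x : ℚ) : Prop := ∃ n : ℕ, 0 < n ∧ (fun x : ℚ => x ^ d + c)^[n] x = x

theorem PerQ.pre {d : ℕ} {c x : ℚ} (h : PerQ d c x) :
    IsPreperiodic (fun x : ℚ => x ^ d + c) x := by
  obtain ⟨n, hn, h⟩ := h
  exact ⟨0, n, hn, h.symm⟩

theorem PerQ.map {d : ℕ} {c x : ℚ} (h : PerQ d c x) : PerQ d c (x ^ d + c) := by
  obtain ⟨n, hn, h⟩ := h
  refine ⟨n, hn, ?_⟩
  have e : (fun x : ℚ => x ^ d + c)^[n] ((fun x : ℚ => x ^ d + c) x) =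
      (fun x : ℚ => x ^ d + c) ((fun x : ℚ => x ^ d + c)^[n] x) := by
    rw [← Function.iterate_succ_apply, Function.iterate_succ_apply']
  rw [h] at e
  exact e

theorem PerQ.ne_map {d : ℕ} {c x y : ℚ} (hx : PerQ d c x) (hy : PerQ d c y) (hne : x ≠ y) :
    x ^ d + c ≠ y ^ d + c := by
  intro h
  apply hne
  obtain ⟨m, hm, h1⟩ := hx
  obtain ⟨n, hn, h2⟩ := hy
  set f : ℚ → ℚ := fun x : ℚ => x ^ d + c with hf
  have hmul : ∀ (z : ℚ) (N : ℕ), f^[N] z = z → ∀ k : ℕ, f^[N * k] z = z := by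
    intro z N hz k
    induction k with
    | zero => rfl
    | succ k ih => rw [Nat.mul_succ, Function.iterate_add_apply, hz, ih]
  have e1 : f^[m * n] x = x := hmul x m h1 n
  have e2 : f^[m * n] y = y := by rw [Nat.mul_comm]; exact hmul y n h2 m
  have hpos : 0 < m * n := Nat.mul_pos hm hn
  obtain ⟨k, hk⟩ : ∃ k, m * n = k + 1 := ⟨m * n - 1, by omega⟩
  rw [hk, Function.iterate_succ_apply] at e1 e2
  rw [← e1, ← e2]
  congr 1

/-- the integer points attached to two rational periodic points -/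
theorem pts {d : ℕ} (hd : 2 ≤ d) {c x y : ℚ} (hx : PerQ d c x) (hy : PerQ d c y) :
    ∃ (v : ℕ) (b : ℤ) (O : Finset ℤ) (φ : ℤ → ℤ) (u w : ℤ), 0 < v ∧ (b : ℚ) = c * (v : ℚ) ^ d ∧
      Sys d 1 b (v ^ (d - 1)) O φ ∧ u ∈ O ∧ w ∈ O ∧ (u : ℚ) = v * x ∧ (w : ℚ) = v * y ∧
      Per φ u ∧ Per φ w := by
  classical
  obtain ⟨v, b, O, φ, hv, hb, h, hpt⟩ := exists_sys_pts hd {x, y} ⟨x, by simp⟩ (by
    intro z hz
    rcases mem_insert.1 hz with rfl | hz
    · exact hx.pre
    · rw [mem_singleton.1 hz]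
      exact hy.pre)
  obtain ⟨u, hu, hux⟩ := hpt x (by simp)
  obtain ⟨w, hw, hwy⟩ := hpt y (by simp)
  have hvQ : (v : ℚ) ≠ 0 := by exact_mod_cast hv.ne'
  have hit : ∀ (k : ℕ) (z : ℚ) (s : ℤ), s ∈ O → (s : ℚ) = v * z →
      ((φ^[k] s : ℤ) : ℚ) = v * (fun x : ℚ => x ^ d + c)^[k] z := by
    intro k
    induction k with
    | zero => intro z s _ hs; exact hs
    | succ k ih =>
      intro z s hs hz
      rw [Function.iterate_succ_apply, Function.iterate_succ_apply]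
      refine ih _ _ (h.maps s hs) ?_
      have h1 := h.eqn s hs
      have h2 : ((v : ℚ) ^ (d - 1)) * (φ s : ℚ) = (s : ℚ) ^ d + b := by
        have h3 := congrArg (Int.cast : ℤ → ℚ) h1
        push_cast at h3
        linarith
      have hv1 : (v : ℚ) ^ (d - 1) ≠ 0 := pow_ne_zero _ hvQ
      apply mul_left_cancel₀ hv1
      rw [h2, hz, hb]
      obtain ⟨e, rfl⟩ : ∃ e, d = e + 1 := ⟨d - 1, by omega⟩
      simp only [Nat.add_sub_cancel]
      ring
  refine ⟨v, b, O, φ, u, w, hv, hb, h, hu, hw, hux, hwy, ?_, ?_⟩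
  · obtain ⟨n, hn, h1⟩ := hx
    refine ⟨n, hn, ?_⟩
    have h2 := hit n x u hu hux
    rw [h1, ← hux] at h2
    exact_mod_cast h2
  · obtain ⟨n, hn, h1⟩ := hy
    refine ⟨n, hn, ?_⟩
    have h2 := hit n y w hw hwy
    rw [h1, ← hwy] at h2
    exact_mod_cast h2

/-- integral pairs with `Psi = ± 1` -/
theorem small_of_psi {d : ℕ} (hde : Even d) (hd : 4 ≤ d) {u w : ℤ} (hne : u ≠ w)
    (h : Psi d u w ∣ 1) : |u| ≤ 1 ∧ |w| ≤ 1 := by
  obtain ⟨e, rfl⟩ := hde
  have he : 2 ≤ e := by omega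
  set Q : ℤ := ∑ i ∈ range e, (u ^ 2) ^ i * (w ^ 2) ^ (e - 1 - i) with hQ
  have h1 : Psi (e + e) u w = (u + w) * Q := by
    apply mul_left_cancel₀ (sub_ne_zero.2 hne)
    rw [psi_mul]
    have h2 : Q * (u ^ 2 - w ^ 2) = (u ^ 2) ^ e - (w ^ 2) ^ e := (Commute.all _ _).geom_sum₂_mul e
    have h3 : u ^ (e + e) - w ^ (e + e) = (u ^ 2) ^ e - (w ^ 2) ^ e := by
      rw [← pow_mul, ← pow_mul, two_mul]
    rw [h3, ← h2]
    ring
  have hQ1 : Q ∣ 1 := (Dvd.intro_left _ h1.symm).trans h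
  have hQ2 : Q ≤ 1 := Int.le_of_dvd one_pos hQ1
  have hpos : ∀ i ∈ range e, 0 ≤ (u ^ 2) ^ i * (w ^ 2) ^ (e - 1 - i) := by
    intro i _
    positivity
  have hu : (u ^ 2) ^ (e - 1) ≤ Q := by
    have h2 := Finset.single_le_sum hpos (mem_range.2 (show e - 1 < e by omega))
    simpa using h2
  have hw : (w ^ 2) ^ (e - 1) ≤ Q := by
    have h2 := Finset.single_le_sum hpos (mem_range.2 (show 0 < e by omega))
    simpa using h2
  have key : ∀ z : ℤ, (z ^ 2) ^ (e - 1) ≤ 1 → |z| ≤ 1 := by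
    intro z hz
    by_contra hlt
    rw [not_le] at hlt
    have h2 : 2 ≤ |z| := by omega
    have h3 : 4 ≤ z ^ 2 := by
      rw [← sq_abs]
      nlinarith
    have h4 : (4 : ℤ) ^ (e - 1) ≤ (z ^ 2) ^ (e - 1) := pow_le_pow_left₀ (by norm_num) h3 _
    have h5 : (4 : ℤ) ^ 1 ≤ 4 ^ (e - 1) := pow_le_pow_right₀ (by norm_num) (by omega)
    linarith
  exact ⟨key u (hu.trans hQ2), key w (hw.trans hQ2)⟩

/-- the ratio of two rational periodic points, or a small integral parameter -/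
theorem ratio {l d : ℕ} (hl : 0 < l) (hde : Even d) (hd : 4 ≤ d) (hld : l ∣ d - 1) {c x y : ℚ}
    (hx : PerQ d c x) (hy : PerQ d c y) (hne : x ≠ y) :
    (y ≠ 0 ∧ ∃ X U : ℤ, FP' l d X U ∧ x / y = (X : ℚ) / (U : ℚ)) ∨
      ∃ b : ℤ, |b| ≤ 2 ∧ c = b := by
  obtain ⟨v, b, O, φ, u, w, hv, hb, h, hu, hw, hux, hwy, pu, pw⟩ := pts (by omega) hx hy
  have hvQ : (v : ℚ) ≠ 0 := by exact_mod_cast hv.ne'
  have huw : u ≠ w := by
    rintro rfl
    apply hne
    rw [hux] at hwy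
    exact mul_left_cancel₀ hvQ hwy
  obtain ⟨k, hk⟩ := hld
  have hk0 : 0 < k := by
    rcases Nat.eq_zero_or_pos k with h0 | h0
    · rw [h0, Nat.mul_zero] at hk
      omega
    · exact h0
  rcases Nat.lt_or_ge v 2 with hv2 | hv2
  · right
    have hv1 : v = 1 := by omega
    subst hv1
    have h' : Sys d 1 b (1 ^ 1) O φ := by simpa using h
    have hsm : ∀ {u w : ℤ}, u ∈ O → w ∈ O → Per φ u → Per φ w → u ≠ w → |u| ≤ 1 ∧ |w| ≤ 1 := by
      intro u w hu hw pu pw huw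
      refine small_of_psi hde hd huw ?_
      have h1 : ∀ q : ℕ, q.Prime → ¬ (q : ℤ) ∣ Psi d u w := fun q hq =>
        not_dvd_psi_of_per h' one_pos hu hw pu pw huw hq (by
          intro h2
          exact hq.one_lt.ne' (Nat.dvd_one.1 h2))
      have h2 : (Psi d u w).natAbs = 1 := by
        by_contra h3
        obtain ⟨q, hq, hqd⟩ := Nat.exists_prime_and_dvd h3
        exact h1 q hq (Int.natCast_dvd.2 hqd)
      rw [← Int.natAbs_dvd, h2]
      exact dvd_rfl
    have h1 := hsm hu hw pu pw huw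
    have pu' : Per φ (φ u) := by simpa using pu.iter 1
    have pw' : Per φ (φ w) := by simpa using pw.iter 1
    have hne' : φ u ≠ φ w := by
      intro h2
      exact huw (per_inj pu pw (k := 1) (by simpa using h2))
    have h2 := hsm (h.maps u hu) (h.maps w hw) pu' pw' hne'
    have h3 := h.eqn u hu
    have h4 : b = φ u - u ^ d := by
      push_cast at h3
      simp only [one_pow, one_mul] at h3
      linarith
    refine ⟨b, ?_, ?_⟩
    · have h5 : |u ^ d| ≤ 1 := by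
        rw [abs_pow]
        exact pow_le_one₀ (abs_nonneg _) h1.1
      rw [h4]
      have := abs_sub (φ u) (u ^ d)
      linarith [h2.1]
    · rw [hb]
      simp
  · left
    have hV : v ^ (d - 1) = (v ^ k) ^ l := by rw [← pow_mul, hk, Nat.mul_comm]
    rw [hV] at h
    have hvk : 2 ≤ v ^ k := le_trans hv2 (Nat.le_self_pow hk0.ne' v)
    have h1 := FP'_of_per hl h (by omega) hvk hu hw pu pw huw
    have hw0 : (w : ℚ) ≠ 0 := by exact_mod_cast h1.1
    have hy0 : y ≠ 0 := by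
      rintro rfl
      rw [mul_zero] at hwy
      exact hw0 hwy
    refine ⟨hy0, u, w, h1, ?_⟩
    rw [hux, hwy, mul_div_mul_left _ _ hvQ]

/-- **EXC** -/
theorem excStm : EXCStm := by
  classical
  intro l d hl hde hd hld _ hF
  set R : Finset ℚ := hF.toFinset with hR
  have hRmem : ∀ t : ℚ, (∃ X U : ℤ, FP' l d X U ∧ t = (X : ℚ) / (U : ℚ)) → t ∈ R := by
    intro t ht
    rw [hR, Set.Finite.mem_toFinset]
    exact ht
  -- the two constants
  let A : ℚ → ℚ → ℚ := fun r s => (r ^ d - s) / (s - 1)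
  -- finitely many `y`
  have hroot : ∀ C : ℚ, {y : ℚ | y ^ (d * d - d) = C}.Finite := by
    intro C
    have hpos : 0 < d * d - d := by
      have : d * 2 ≤ d * d := Nat.mul_le_mul_left d (by omega)
      omega
    have hP : (Polynomial.X ^ (d * d - d) - Polynomial.C C : Polynomial ℚ) ≠ 0 :=
      Polynomial.X_pow_sub_C_ne_zero hpos C
    refine ((Polynomial.X ^ (d * d - d) - Polynomial.C C : Polynomial ℚ).roots.toFinset.finite_toSet).subset ?_
    intro y hy
    rw [Finset.mem_coe, Multiset.mem_toFinset, Polynomial.mem_roots hP, Polynomial.IsRoot.def]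
    simp only [Polynomial.eval_sub, Polynomial.eval_pow, Polynomial.eval_X, Polynomial.eval_C]
    exact sub_eq_zero.2 hy
  have hfin1 : (⋃ p ∈ ((R ×ˢ R ×ˢ R : Finset (ℚ × ℚ × ℚ)) : Set (ℚ × ℚ × ℚ)),
      (fun y => A p.1 p.2.1 * y ^ d) '' {y : ℚ | y ^ (d * d - d) =
        A p.1 p.2.1 / (A p.2.1 p.2.2 * (1 + A p.1 p.2.1) ^ d)}).Finite :=
    (Finset.finite_toSet _).biUnion fun p _ => (hroot _).image _
  have hfin2 : ((fun b : ℤ => (b : ℚ)) '' {b : ℤ | |b| ≤ 2}).Finite := by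
    refine Set.Finite.image _ ((Set.finite_Icc (-2 : ℤ) 2).subset ?_)
    intro b hb
    exact abs_le.1 hb
  refine ((hfin1.union hfin2).union (Set.finite_singleton (0 : ℚ))).subset ?_
  rintro c ⟨x, y, hne, hx, hy⟩
  have hx' : PerQ d c x := hx
  have hy' : PerQ d c y := hy
  have hne1 := hx'.ne_map hy' hne
  have hne2 := hx'.map.ne_map hy'.map hne1
  rcases ratio (by omega) hde hd hld hx' hy' hne with ⟨hy0, h1⟩ | ⟨b, hb, hc⟩
  swap
  · exact Or.inl (Or.inr ⟨b, hb, hc.symm⟩)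
  rcases ratio (by omega) hde hd hld hx'.map hy'.map hne1 with ⟨hfy0, h2⟩ | ⟨b, hb, hc⟩
  swap
  · exact Or.inl (Or.inr ⟨b, hb, hc.symm⟩)
  rcases ratio (by omega) hde hd hld hx'.map.map hy'.map.map hne2 with ⟨hffy0, h3⟩ | ⟨b, hb, hc⟩
  swap
  · exact Or.inl (Or.inr ⟨b, hb, hc.symm⟩)
  by_cases hc0 : c = 0
  · exact Or.inr hc0
  left
  left
  have m1 := hRmem _ h1
  have m2 := hRmem _ h2
  have m3 := hRmem _ h3
  set r1 := x / y with hr1
  set fx := x ^ d + c with hfx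
  set fy := y ^ d + c with hfy
  set r2 := fx / fy with hr2
  set r3 := (fx ^ d + c) / (fy ^ d + c) with hr3
  have e1 : x = r1 * y := by rw [hr1, div_mul_cancel₀ _ hy0]
  have e2 : fx = r2 * fy := by rw [hr2, div_mul_cancel₀ _ hfy0]
  have e3 : fx ^ d + c = r3 * (fy ^ d + c) := by rw [hr3, div_mul_cancel₀ _ hffy0]
  clear_value r1 r2 r3
  have hr2' : r2 - 1 ≠ 0 := by
    intro h0
    apply hne1
    rw [e2, sub_eq_zero.1 h0, one_mul]
  have hr3' : r3 - 1 ≠ 0 := by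
    intro h0
    apply hne2
    rw [e3, sub_eq_zero.1 h0, one_mul]
  have hcA : c = A r1 r2 * y ^ d := by
    simp only [A]
    rw [div_mul_eq_mul_div, eq_div_iff hr2']
    have h4 : (r1 * y) ^ d + c = r2 * (y ^ d + c) := by
      rw [← e1, ← hfx, ← hfy]
      exact e2
    rw [mul_pow] at h4
    linear_combination -h4
  have hcB : c = A r2 r3 * fy ^ d := by
    simp only [A]
    rw [div_mul_eq_mul_div, eq_div_iff hr3']
    have h4 : (r2 * fy) ^ d + c = r3 * (fy ^ d + c) := by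
      rw [← e2]
      exact e3
    rw [mul_pow] at h4
    linear_combination -h4
  have hfyA : fy = (1 + A r1 r2) * y ^ d := by
    rw [hfy]
    linear_combination hcA
  simp only [Set.mem_iUnion]
  refine ⟨(r1, r2, r3), ?_, y, ?_, hcA.symm⟩
  · rw [Finset.mem_coe, Finset.mem_product, Finset.mem_product]
    exact ⟨m1, m2, m3⟩
  · show y ^ (d * d - d) = A r1 r2 / (A r2 r3 * (1 + A r1 r2) ^ d)
    have hyd : y ^ d ≠ 0 := pow_ne_zero _ hy0
    have h5 : A r2 r3 * (1 + A r1 r2) ^ d * y ^ (d * d) = c := by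
      rw [hfyA, mul_pow, ← pow_mul] at hcB
      rw [mul_assoc]
      exact hcB.symm
    have hne5 : A r2 r3 * (1 + A r1 r2) ^ d ≠ 0 := by
      intro h0
      rw [h0, zero_mul] at h5
      exact hc0 h5.symm
    rw [eq_div_iff hne5]
    apply mul_right_cancel₀ hyd
    rw [← hcA]
    have h6 : y ^ (d * d) = y ^ (d * d - d) * y ^ d := by
      rw [← pow_add, Nat.sub_add_cancel (Nat.le_mul_of_pos_left d (by omega))]
    rw [h6] at h5
    linear_combination h5

end Pool.Agent.W2helper6.BT
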